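import Mathlib
import Pool.Agent.H37.PP.Asm

/-!
# [H33 QT ModA] all characters modulo any `q`, `P q ≤ N`

Copy of `pairA`, `pigA`, `primA` (`H37/PP/Asm`) for the family of all characters modulo one number `q`.
-/

set_option autoImplicit false

namespace Pool.Agent.H33.QT

open Finset Pool.H2.EL Pool.Agent.H18.QT Pool.H37.PP

/-- two characters modulo `q` whose quotient has a large conductor -/
theorem pairQ (H h0 : ℕ) {η : ℝ} (hη : 0 < η) :
    ∃ F P : ℕ, ∀ q : ℕ, q ≠ 0 → ∀ (χ χ' : DirichletCharacter ℂ q) (f : ℕ), f ∣ q →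
    ∀ ψ : DirichletCharacter ℂ f, ψ.IsPrimitive → (∀ n : ℕ, n.Coprime q →
      χ (n : ZMod q) * (starRingEnd ℂ) (χ' (n : ZMod q)) = ψ (n : ZMod f)) → F < f →
    ∀ N : ℕ, P * q ≤ N → ∀ r : ℕ, 1 ≤ r → r ≤ H → ∀ (b : Fin r → Bool) (α β : Fin r → ℕ),
    (∀ l, 1 ≤ α l ∧ α l ≤ H) → (∀ l, β l ≤ H) →
    (∀ l l', l ≠ l' → α l * (β l' + h0) ≠ α l' * (β l + h0)) → ∀ x : ℕ, x ≤ N →
    ‖∑ t ∈ range x, (∏ l, cj (b l) (χ ((α l * t + (β l + h0) : ℕ) : ZMod q))) *
      (starRingEnd ℂ) (∏ l, cj (b l) (χ' ((α l * t + (β l + h0) : ℕ) : ZMod q)))‖ ≤ η * N := by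
  classical
  obtain ⟨R, P1, hkar⟩ := kar H (H + h0) hη (δ := 1 / 2) (by norm_num)
  obtain ⟨B0, P2, hkpp⟩ := kpp H (H + h0) hη
  obtain ⟨F, hF⟩ := big_part P1 B0
  refine ⟨F, P2 + 1, ?_⟩
  intro q hq0 χ χ' f hfQ ψ hψ hag hFf N hN r hr hrH b α β hα hβ hfr x hx
  obtain ⟨p, a, f', hp, ha, hfe, hpf', hcase⟩ := hF f hFf
  have hpf : Fact p.Prime := ⟨hp⟩
  have hQ0 : q ≠ 0 := hq0
  obtain ⟨e, Q', hpQ', hQ⟩ := Nat.exists_eq_pow_mul_and_not_dvd hQ0 p hp.ne_one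
  have hQ'0 : 0 < Q' := Nat.pos_of_ne_zero fun h => by rw [h, mul_zero] at hQ; exact hQ0 hQ
  obtain ⟨pp, hpp⟩ : ∃ pp, pp = p ^ a := ⟨_, rfl⟩
  rw [← hpp] at hfe
  subst hfe
  have hpp0 : pp ≠ 0 := by rw [hpp]; exact pow_ne_zero _ hp.ne_zero
  have hf'0 : f' ≠ 0 := fun h => hpf' (by rw [h]; exact dvd_zero _)
  have hcop : pp.Coprime f' := by
    rw [hpp]
    exact Nat.Coprime.pow_left _ ((Nat.Prime.coprime_iff_not_dvd hp).2 hpf')
  -- the parts of the modulus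
  have hcop' : (p ^ e).Coprime Q' :=
    Nat.Coprime.pow_left _ ((Nat.Prime.coprime_iff_not_dvd hp).2 hpQ')
  have hppe : pp ∣ p ^ e := by
    have h1 : pp ∣ p ^ e * Q' := by rw [← hQ]; exact (Dvd.intro _ rfl).trans hfQ
    refine Nat.Coprime.dvd_of_dvd_mul_right ?_ h1
    rw [hpp]
    exact Nat.Coprime.pow_left _ ((Nat.Prime.coprime_iff_not_dvd hp).2 hpQ')
  have hf'Q : f' ∣ Q' := by
    have h1 : f' ∣ p ^ e * Q' := by rw [← hQ]; exact (Dvd.intro_left _ rfl).trans hfQ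
    refine Nat.Coprime.dvd_of_dvd_mul_left ?_ h1
    exact (Nat.Coprime.pow_left _ ((Nat.Prime.coprime_iff_not_dvd hp).2 hpf')).symm
  have hpQ : p ∣ q := by
    have h1 : p ∣ pp := by rw [hpp]; exact dvd_pow_self p (by omega)
    exact (h1.trans (Dvd.intro _ rfl)).trans hfQ
  have hle : Q' * pp ≤ q := by
    rw [hQ, mul_comm (p ^ e)]
    exact Nat.mul_le_mul_left _ (Nat.le_of_dvd (Nat.pow_pos hp.pos) hppe)
  obtain ⟨ψ1, ψ2, hs1, _, hs3⟩ := Pool.Agent.H75.QT.split hpp0 hf'0 hcop ψ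
  obtain ⟨hprim, _⟩ := hs3 hψ
  obtain ⟨V, hV⟩ : ∃ V : ℕ → ℂ, V = fun n => if n.Coprime Q' then ψ2 (n : ZMod f') else 0 :=
    ⟨_, rfl⟩
  have hVper : ∀ n c, V (n + Q' * c) = V n := by
    intro n c
    rw [hV]
    simp only
    have h1 : (n + Q' * c).Coprime Q' ↔ n.Coprime Q' := by
      rw [Nat.coprime_add_mul_left_left]
    have h2 : ((n + Q' * c : ℕ) : ZMod f') = (n : ZMod f') := by
      push_cast
      rw [(ZMod.natCast_eq_zero_iff Q' f').2 hf'Q, zero_mul, add_zero]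
    rw [h2]
    simp only [h1]
  have hVb : ∀ n, ‖V n‖ ≤ 1 := by
    intro n
    rw [hV]
    simp only
    split_ifs
    · exact DirichletCharacter.norm_le_one _ _
    · simp
  have hquot : ∀ n : ℕ, χ (n : ZMod q) * (starRingEnd ℂ) (χ' (n : ZMod q)) =
      ψ1 (n : ZMod pp) * V n := by
    intro n
    by_cases hn : n.Coprime q
    · have hnQ : n.Coprime Q' := Nat.Coprime.coprime_dvd_right (by rw [hQ]; exact Dvd.intro_left _ rfl) hn
      rw [hag n hn, hs1, hV]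
      simp only
      rw [if_pos hnQ]
    · have h0 : χ (n : ZMod q) * (starRingEnd ℂ) (χ' (n : ZMod q)) = 0 := by
        rw [MulChar.map_nonunit χ (fun h => hn ((ZMod.isUnit_iff_coprime n q).1 h)), zero_mul]
      rw [h0]
      by_cases hpn : p ∣ n
      · rw [MulChar.map_nonunit ψ1, zero_mul]
        intro h
        have h1 := (ZMod.isUnit_iff_coprime n pp).1 h
        have h2 : p ∣ pp := by rw [hpp]; exact dvd_pow_self p (by omega)
        have h3 : p ∣ Nat.gcd n pp := Nat.dvd_gcd hpn h2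
        rw [h1] at h3
        exact hp.one_lt.ne' (Nat.dvd_one.1 h3)
      · have hnQ : ¬ n.Coprime Q' := by
          intro h
          apply hn
          rw [hQ]
          exact Nat.Coprime.mul_right
            (Nat.Coprime.pow_right _ ((Nat.Prime.coprime_iff_not_dvd hp).2 hpn).symm) h
        rw [hV]
        simp only
        rw [if_neg hnQ, mul_zero]
  have hterm : ∀ t : ℕ, (∏ l, cj (b l) (χ ((α l * t + (β l + h0) : ℕ) : ZMod q))) *
      (starRingEnd ℂ) (∏ l, cj (b l) (χ' ((α l * t + (β l + h0) : ℕ) : ZMod q))) =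
      (∏ l, cj (b l) (V (α l * t + (β l + h0)))) *
        ∏ l, cj (b l) (ψ1 ((α l * t + (β l + h0) : ℕ) : ZMod pp)) := by
    intro t
    rw [map_prod, ← prod_mul_distrib, ← prod_mul_distrib]
    refine prod_congr rfl fun l _ => ?_
    have e1 : (starRingEnd ℂ) (cj (b l) (χ' ((α l * t + (β l + h0) : ℕ) : ZMod q))) =
        cj (b l) ((starRingEnd ℂ) (χ' ((α l * t + (β l + h0) : ℕ) : ZMod q))) := by
      unfold cj
      cases b l <;> simp
    rw [e1, ← cj_mul', hquot, ← cj_mul', mul_comm]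
  rw [sum_congr rfl fun t _ => hterm t]
  have hvper : ∀ t : ℕ, (∏ l, cj (b l) (V (α l * (t + Q') + (β l + h0)))) =
      ∏ l, cj (b l) (V (α l * t + (β l + h0))) := by
    intro t
    refine prod_congr rfl fun l _ => ?_
    congr 1
    rw [show α l * (t + Q') + (β l + h0) = α l * t + (β l + h0) + Q' * α l by ring, hVper]
  have hvb : ∀ t : ℕ, ‖∏ l, cj (b l) (V (α l * t + (β l + h0)))‖ ≤ 1 := by
    intro t
    rw [norm_prod]
    refine prod_le_one (fun _ _ => norm_nonneg _) fun l _ => ?_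
    rw [cj_norm]
    exact hVb _
  rcases hcase with ⟨ha1, hPp⟩ | ⟨ha2, hB⟩
  · have hpe : pp = p := by rw [hpp, ha1, pow_one]
    subst hpe
    have hψ1 : ψ1 ≠ 1 := by
      intro h
      rw [h] at hprim
      have h1 : (1 : DirichletCharacter ℂ pp).conductor = pp := hprim
      rw [DirichletCharacter.conductor_one] at h1
      exact hp.one_lt.ne h1
    refine hkar pp hpf hPp ψ1 (wb ψ1 hψ1 R) Q' hQ'0 hpQ' N ?_ _ hvper hvb r hr hrH b α
      (fun l => β l + h0) hα (fun l => by have := hβ l; omega) hfr x hx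
    rw [show (1 / 2 + 1 / 2 : ℝ) = 1 by norm_num, Real.rpow_one]
    have h1 : Q' * pp ≤ N := by
      refine hle.trans (le_trans ?_ hN)
      exact Nat.le_mul_of_pos_left _ (Nat.succ_pos _)
    exact_mod_cast h1
  · subst hpp
    refine hkpp p hpf a ha2 hB ψ1 hprim Q' hQ'0 hpQ' N ?_ _ hvper hvb r hr hrH b α
      (fun l => β l + h0) hα (fun l => by have := hβ l; omega) hfr x hx
    calc P2 * (Q' * p ^ a) ≤ P2 * q := Nat.mul_le_mul_left _ hle
      _ ≤ (P2 + 1) * q := Nat.mul_le_mul_right _ (Nat.le_succ _)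
      _ ≤ N := hN

/-- the quotient of two characters modulo `q` -/
theorem quot1 {q : ℕ} (hq : q ≠ 0) (χ χ' : DirichletCharacter ℂ q) :
    ∃ f : ℕ, f ∣ q ∧ ∃ ψ : DirichletCharacter ℂ f, ψ.IsPrimitive ∧
      ∀ n : ℕ, n.Coprime q →
        χ (n : ZMod q) * (starRingEnd ℂ) (χ' (n : ZMod q)) = ψ (n : ZMod f) := by
  have : NeZero q := ⟨hq⟩
  refine ⟨(χ * χ'⁻¹).conductor, DirichletCharacter.conductor_dvd_level _,
    (χ * χ'⁻¹).primitiveCharacter, DirichletCharacter.primitiveCharacter_isPrimitive _, ?_⟩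
  intro n hn
  have hco : IsCoprime ((n : ℕ) : ℤ) ((q : ℕ) : ℤ) := Nat.isCoprime_iff_coprime.2 hn
  have h1 := DirichletCharacter.primitiveCharacter_apply_of_isCoprime (χ * χ'⁻¹) hco
  simp only [Int.cast_natCast] at h1
  rw [h1, MulChar.mul_apply, ← MulChar.star_apply']
  rfl

/-- the quotient has a small conductor -/
def CloseQ (F q : ℕ) (z z' : DirichletCharacter ℂ q) : Prop :=
  ∃ y : Σ q : ℕ, DirichletCharacter ℂ q, y.1 ≤ F ∧ ∀ n : ℕ, n.Coprime q →
    z (n : ZMod q) * (starRingEnd ℂ) (z' (n : ZMod q)) = y.2 (n : ZMod y.1)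

/-- a character is close to few others -/
lemma close_few {q : ℕ} (hq : q ≠ 0) (F : ℕ) (T : Finset (DirichletCharacter ℂ q))
    (z : DirichletCharacter ℂ q) :
    ∃ D : Finset (DirichletCharacter ℂ q), D.card ≤ (cands (F + 1)).card + 1 ∧ z ∈ D ∧
      ∀ z' ∈ T, CloseQ F q z z' → z' ∈ D := by
  classical
  have hNe : NeZero q := ⟨hq⟩
  refine ⟨insert z (T.filter (CloseQ F q z)), (card_insert_le _ _).trans ?_, mem_insert_self _ _,
    fun z' hz' hc => mem_insert_of_mem (mem_filter.2 ⟨hz', hc⟩)⟩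
  refine Nat.add_le_add_right ?_ 1
  refine card_le_card_of_injOn
    (fun z' => if h : CloseQ F q z z' then h.choose else ⟨0, 1⟩) (fun z' hz' => ?_) ?_
  · have hc := (mem_filter.1 hz').2
    simp only [dif_pos hc]
    exact mem_cands (Nat.lt_succ_of_le hc.choose_spec.1)
  · intro u hu v hv huv
    have hu' := mem_filter.1 hu
    have hv' := mem_filter.1 hv
    simp only [dif_pos hu'.2, dif_pos hv'.2] at huv
    obtain ⟨-, h1⟩ := hu'.2.choose_spec
    obtain ⟨-, h2⟩ := hv'.2.choose_spec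
    rw [← huv] at h2
    refine MulChar.ext fun a => ?_
    obtain ⟨n, hn⟩ : ∃ n : ℕ, n = (a : ZMod q).val := ⟨_, rfl⟩
    have hcop : n.Coprime q := by
      rw [hn]
      exact ZMod.val_coe_unit_coprime a
    have ha : (a : ZMod q) = (n : ZMod q) := by
      rw [hn, ZMod.natCast_zmod_val]
    rw [ha]
    have h3 := (h1 n hcop).trans (h2 n hcop).symm
    have h4 : z (n : ZMod q) ≠ 0 := by
      have h5 := DirichletCharacter.unit_norm_eq_one z (ZMod.unitOfCoprime n hcop)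
      rw [ZMod.coe_unitOfCoprime] at h5
      intro h6
      rw [h6, norm_zero] at h5
      exact zero_ne_one h5
    exact (starRingEnd ℂ).injective (mul_left_cancel₀ h4 h3)

/-- few characters modulo `q` are exceptional -/
theorem pigQ (h0 H : ℕ) {δ : ℝ} (hδ : 0 < δ) :
    ∃ K P : ℕ, ∀ q : ℕ, q ≠ 0 → ∀ N : ℕ, P * q ≤ N → ∀ w : ℕ → ℂ, (∀ n, ‖w n‖ ≤ 1) →
      ∀ Bad : Finset (DirichletCharacter ℂ q),
      (∀ z ∈ Bad, ¬ Unc (fun n => w n * z ((n + h0 : ℕ) : ZMod q)) h0 H N δ) → Bad.card ≤ K := by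
  classical
  obtain ⟨M, hM⟩ := exists_nat_ge (2 / (δ / 2) ^ 2)
  have hδ2 : 0 < δ / 2 := by positivity
  have hη : 0 < (δ / 2) ^ 2 / 2 := by positivity
  obtain ⟨F, P, hP⟩ := pairQ H h0 hη
  obtain ⟨R, hR⟩ := exists_nat_ge (4 / δ)
  refine ⟨Fintype.card (Cf H × Fin (R + 1)) * (((cands (F + 1)).card + 1) * M), P + R,
    fun q hq N hqN w hw Bad hBad => ?_⟩
  by_contra hcon
  push Not at hcon
  obtain ⟨z00, hz00⟩ : Bad.Nonempty := card_pos.1 (lt_of_le_of_lt (Nat.zero_le _) hcon)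
  have hNR : P + R ≤ N := by
    exact le_trans (Nat.le_mul_of_pos_right _ (Nat.pos_of_ne_zero hq)) hqN
  have hN : 4 / δ ≤ N := hR.trans (by exact_mod_cast (by omega : R ≤ N))
  have h2 : ∀ z ∈ Bad, ∃ y : Cf H × Fin (R + 1), y.1.Ok h0 ∧
      δ / 2 * N < ‖∑ t ∈ range (N * y.2 / R),
        (∏ l, cj (y.1.2.2.2 l) (w ((y.1.2.1 l : ℕ) * t + (y.1.2.2.1 l : ℕ)))) *
        ∏ l, cj (y.1.2.2.2 l)
          (z (((y.1.2.1 l : ℕ) * t + ((y.1.2.2.1 l : ℕ) + h0) : ℕ) : ZMod q))‖ := by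
    intro z hz
    exact cutg hδ hR hN w hw (fun n => z (n : ZMod q))
      (fun n => DirichletCharacter.norm_le_one _ _) (hBad z hz)
  have : Nonempty (Cf H × Fin (R + 1)) := ⟨(h2 z00 hz00).choose⟩
  choose! y hy1 hy2 using h2
  obtain ⟨g, _, hz2⟩ := exists_lt_card_fiber_of_mul_lt_card_of_maps_to
    (s := Bad) (t := (univ : Finset (Cf H × Fin (R + 1)))) (f := y)
    (n := ((cands (F + 1)).card + 1) * M) (fun _ _ => mem_univ _) (by
      rw [card_univ]
      exact hcon)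
  obtain ⟨T, hT⟩ : ∃ T, T = Bad.filter fun z => y z = g := ⟨_, rfl⟩
  rw [← hT] at hz2
  have hTB : ∀ z ∈ T, z ∈ Bad ∧ y z = g := fun z hz => by
    rw [hT] at hz
    exact mem_filter.1 hz
  obtain ⟨e, heT, hfar, _⟩ := Pool.H37.PP.greedy (CloseQ F q) ((cands (F + 1)).card + 1) M T
    (fun z _ => close_few hq F T z) hz2
  have heB : ∀ m, e m ∈ Bad := fun m => (hTB _ (heT m)).1
  have hez : ∀ m, y (e m) = g := fun m => (hTB _ (heT m)).2
  have hMpos : 0 < M := by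
    have : (0 : ℝ) < M := lt_of_lt_of_le (by positivity) hM
    exact_mod_cast this
  have hok : g.1.Ok h0 := by
    rw [← hez ⟨0, hMpos⟩]
    exact hy1 _ (heB _)
  have hxN : N * g.2 / R ≤ N := by
    refine Nat.div_le_of_le_mul ?_
    rw [mul_comm]
    exact Nat.mul_le_mul_right _ (Nat.le_of_lt_succ g.2.2)
  have hα : ∀ l, 1 ≤ (g.1.2.1 l : ℕ) ∧ (g.1.2.1 l : ℕ) ≤ H :=
    fun l => ⟨hok.2.1 l, Nat.le_of_lt_succ (g.1.2.1 l).2⟩
  have hβ : ∀ l, (g.1.2.2.1 l : ℕ) ≤ H := fun l => Nat.le_of_lt_succ (g.1.2.2.1 l).2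
  have hrH : (g.1.1 : ℕ) ≤ H := Nat.le_of_lt_succ g.1.1.2
  have hPq : P * q ≤ N := le_trans (Nat.mul_le_mul_right _ (Nat.le_add_right _ _)) hqN
  have hpair : ∀ m m', m < m' → ‖∑ t ∈ range (N * g.2 / R),
      (∏ l, cj (g.1.2.2.2 l)
        ((e m) (((g.1.2.1 l : ℕ) * t + ((g.1.2.2.1 l : ℕ) + h0) : ℕ) : ZMod q))) *
      (starRingEnd ℂ) (∏ l, cj (g.1.2.2.2 l)
        ((e m') (((g.1.2.1 l : ℕ) * t + ((g.1.2.2.1 l : ℕ) + h0) : ℕ) : ZMod q)))‖ ≤
      (δ / 2) ^ 2 / 2 * N := by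
    intro m m' hmm
    obtain ⟨f, hf, ψ, hψ, hag⟩ := quot1 hq (e m) (e m')
    have hFf : F < f := by
      by_contra hcc
      push Not at hcc
      exact hfar m m' hmm ⟨⟨f, ψ⟩, hcc, hag⟩
    exact hP q hq _ _ f hf ψ hψ hag hFf N hPq _ hok.1 hrH _ _ _ hα hβ hok.2.2 _ hxN
  obtain ⟨m, hm⟩ := bessel hxN
    (fun t => ∏ l, cj (g.1.2.2.2 l) (w ((g.1.2.1 l : ℕ) * t + (g.1.2.2.1 l : ℕ)))) (fun t => by
      rw [norm_prod]
      refine prod_le_one (fun _ _ => norm_nonneg _) fun l _ => ?_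
      rw [cj_norm]
      exact hw _)
    (fun m t => ∏ l, cj (g.1.2.2.2 l)
      ((e m) (((g.1.2.1 l : ℕ) * t + ((g.1.2.2.1 l : ℕ) + h0) : ℕ) : ZMod q)))
    (fun m t => by
      rw [norm_prod]
      refine prod_le_one (fun _ _ => norm_nonneg _) fun l _ => ?_
      rw [cj_norm]
      exact DirichletCharacter.norm_le_one _ _) hδ2 hM (by
      intro m m' hmm
      rcases lt_or_gt_of_ne hmm with h | h
      · exact hpair m m' h
      · refine le_trans (le_of_eq ?_) (hpair m' m h)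
        rw [← RCLike.norm_conj, map_sum]
        congr 1
        refine sum_congr rfl fun t _ => ?_
        rw [map_mul, Complex.conj_conj, mul_comm])
  have h5 := hy2 (e m) (heB m)
  rw [hez m] at h5
  linarith

/-- all characters modulo any `q`, `P q ≤ N` -/
theorem modAll (k : ℕ) (h : Fin k → ℤ) (j : Fin k)
    (hne : ∀ i, i ≠ j → h i ≠ h j) {ε : ℝ} (hε : 0 < ε) :
    ∃ K P : ℕ, ∀ q : ℕ, q ≠ 0 → ∀ N : ℕ, P * q ≤ N → ∀ S : Finset (Fin k), j ∉ S →
      ∀ d : Fin k → ArithmeticFunction ℂ, (∀ i n, ‖d i n‖ ≤ 1) →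
      ∃ E : Finset (DirichletCharacter ℂ q), E.card ≤ K ∧
      ∀ χ : DirichletCharacter ℂ q, χ ∉ E →
      ∀ G : Fin k → ArithmeticFunction ℂ, (∀ i n, ‖G i n‖ ≤ 1) →
      (∀ i ∈ S, (G i).IsMultiplicative) → (∀ i, i ∉ S → i ≠ j → G i = d i) →
      (∀ n : ℕ, G j n = d j n * χ (n : ZMod q)) →
      ‖(1 / (N : ℂ)) * ∑ n ∈ Icc 1 N, ∏ i, G i ((n : ℤ) + h i).toNat‖ ≤ ε := by
  classical
  rcases k with _ | k
  · exact j.elim0
  obtain ⟨H, δ, N0, s, hδ, hs, hfin⟩ := fin_core k h j hne ε hε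
  obtain ⟨K, P, hK⟩ := pigQ (h j + s).toNat H hδ
  refine ⟨K, P + N0, fun q hq N hqN S hjS d hd => ?_⟩
  have hq1 : 1 ≤ q := Nat.pos_of_ne_zero hq
  have hqN1 : P * q ≤ N := by nlinarith
  have hN0 : N0 ≤ N := by nlinarith
  obtain ⟨w, hw⟩ : ∃ w : ℕ → ℂ, w = fun n => ∏ x ∈ univ \ S, d x (n + (h x + s).toNat) := ⟨_, rfl⟩
  refine ⟨univ.filter fun z : DirichletCharacter ℂ q =>
    ¬ Unc (fun n => w n * z ((n + (h j + s).toNat : ℕ) : ZMod q)) (h j + s).toNat H N δ,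
    hK q hq N hqN1 w (fun n => ?_) _ (fun z hz => (mem_filter.1 hz).2), ?_⟩
  · rw [hw]
    simp only
    rw [norm_prod]
    exact prod_le_one (fun _ _ => norm_nonneg _) fun x _ => hd x _
  · intro χ hE G hG hGS hGd hGj
    have hunc : Unc (fun n => w n * χ ((n + (h j + s).toNat : ℕ) : ZMod q))
        (h j + s).toNat H N δ := by
      by_contra hcon
      exact hE (mem_filter.2 ⟨mem_univ _, hcon⟩)
    refine hfin N hN0 G S hjS hG hGS ?_
    have h1 : (fun n => ∏ x ∈ univ \ S, G x (n + (h x + s).toNat)) =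
        fun n => w n * χ ((n + (h j + s).toNat : ℕ) : ZMod q) := by
      funext n
      have hjm : j ∈ univ \ S := by
        rw [mem_sdiff]
        exact ⟨mem_univ _, hjS⟩
      rw [hw]
      simp only
      rw [← mul_prod_erase _ _ hjm, ← mul_prod_erase _ (fun x => d x (n + (h x + s).toNat)) hjm,
        hGj]
      have h2 : ∏ x ∈ (univ \ S).erase j, G x (n + (h x + s).toNat) =
          ∏ x ∈ (univ \ S).erase j, d x (n + (h x + s).toNat) := by
        refine prod_congr rfl fun x hx => ?_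
        rw [mem_erase, mem_sdiff] at hx
        rw [hGd x hx.2.2 hx.1]
      rw [h2]
      ring
    rw [h1]
    exact hunc

end Pool.Agent.H33.QT
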