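import Mathlib
import Pool.Agent.H37.PP.Asm

/-!
# [H33 QT PrimB] primitive characters of conductor `q`, `P q² ≤ N` or `q` prime, `q ≤ N ^ (1 - θ)`

`pigB`, `primB`: copies of `pigA`, `primA` (`H37/PP/Asm`) for the family `Fam`, from the pair estimate `PairB`.
-/

set_option autoImplicit false

namespace Pool.Agent.H33.QT

open Finset Pool.H2.EL Pool.Agent.H18.QT Pool.H37.PP

/-- the family of characters at the scale `N` -/
def Fam (θ : ℝ) (P N : ℕ) (z : Σ q : ℕ, DirichletCharacter ℂ q) : Prop :=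
  z.1 ≠ 0 ∧ z.2.IsPrimitive ∧
    (P * z.1 ^ 2 ≤ N ∨ (z.1.Prime ∧ (z.1 : ℝ) ≤ (N : ℝ) ^ (1 - θ)))

/-- the pair estimate for the family -/
def PairB (H h0 : ℕ) (η θ : ℝ) : Prop :=
  ∃ F P N1 : ℕ, ∀ N : ℕ, N1 ≤ N → ∀ z z' : Σ q : ℕ, DirichletCharacter ℂ q,
    Fam θ P N z → Fam θ P N z' → ¬ Close F z z' → ∀ r : ℕ, 1 ≤ r → r ≤ H →
    ∀ (b : Fin r → Bool) (α β : Fin r → ℕ),
    (∀ l, 1 ≤ α l ∧ α l ≤ H) → (∀ l, β l ≤ H) →
    (∀ l l', l ≠ l' → α l * (β l' + h0) ≠ α l' * (β l + h0)) → ∀ x : ℕ, x ≤ N →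
    ‖∑ t ∈ range x, (∏ l, cj (b l) (z.2 ((α l * t + (β l + h0) : ℕ) : ZMod z.1))) *
      (starRingEnd ℂ) (∏ l, cj (b l) (z'.2 ((α l * t + (β l + h0) : ℕ) : ZMod z'.1)))‖ ≤ η * N

lemma fam_mono {θ : ℝ} {P P' N : ℕ} (h : P ≤ P') {z : Σ q : ℕ, DirichletCharacter ℂ q}
    (hz : Fam θ P' N z) : Fam θ P N z :=
  ⟨hz.1, hz.2.1, hz.2.2.imp_left fun h1 => le_trans (Nat.mul_le_mul_right _ h) h1⟩

lemma fam_le {θ : ℝ} (hθ : 0 ≤ θ) {P N : ℕ} (hP : 1 ≤ P) {z : Σ q : ℕ, DirichletCharacter ℂ q}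
    (hz : Fam θ P N z) : z.1 ≤ N := by
  rcases hz.2.2 with h | ⟨h1, h2⟩
  · have e1 : z.1 ≤ z.1 ^ 2 := Nat.le_self_pow two_ne_zero _
    exact e1.trans ((Nat.le_mul_of_pos_left _ hP).trans h)
  · rcases Nat.eq_zero_or_pos N with h0 | h0
    · exfalso
      have e1 : (z.1 : ℝ) ≤ 1 := by
        refine h2.trans ?_
        rw [h0, Nat.cast_zero]
        exact Real.zero_rpow_le_one _
      have e2 : z.1 ≤ 1 := by exact_mod_cast e1
      have e3 := h1.two_le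
      omega
    · have e1 : (1 : ℝ) ≤ N := by exact_mod_cast h0
      have e2 : (N : ℝ) ^ (1 - θ) ≤ N := by
        calc (N : ℝ) ^ (1 - θ) ≤ (N : ℝ) ^ (1 : ℝ) :=
              Real.rpow_le_rpow_of_exponent_le e1 (by linarith)
          _ = N := Real.rpow_one _
      exact_mod_cast h2.trans e2

/-- few characters of the family are exceptional -/
theorem pigB (h0 H : ℕ) {δ : ℝ} (hδ : 0 < δ) {θ : ℝ} (hθ : 0 ≤ θ)
    (hPB : PairB H h0 ((δ / 2) ^ 2 / 2) θ) :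
    ∃ K P : ℕ, 1 ≤ P ∧ ∀ N : ℕ, ∀ w : ℕ → ℂ, (∀ n, ‖w n‖ ≤ 1) →
      ∀ Bad : Finset (Σ q : ℕ, DirichletCharacter ℂ q),
      (∀ z ∈ Bad, Fam θ P N z ∧
        ¬ Unc (fun n => w n * z.2 ((n + h0 : ℕ) : ZMod z.1)) h0 H N δ) → Bad.card ≤ K := by
  classical
  obtain ⟨M, hM⟩ := exists_nat_ge (2 / (δ / 2) ^ 2)
  have hδ2 : 0 < δ / 2 := by positivity
  have hη : 0 < (δ / 2) ^ 2 / 2 := by positivity
  obtain ⟨F, P, N1, hP⟩ := hPB
  obtain ⟨R, hR⟩ := exists_nat_ge (4 / δ)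
  refine ⟨Fintype.card (Cf H × Fin (R + 1)) * (((cands (F + 1)).card + 1) * M) +
    (cands (N1 + R + 1)).card, P + 1, Nat.succ_pos _, fun N w hw Bad hBad => ?_⟩
  by_cases hNR : N < N1 + R
  · refine le_trans (card_le_card fun z hz => mem_cands ?_) (Nat.le_add_left _ _)
    have h1 := fam_le hθ (Nat.succ_pos P) (hBad z hz).1
    omega
  push Not at hNR
  by_contra hcon'
  push Not at hcon'
  have hcon : Fintype.card (Cf H × Fin (R + 1)) * (((cands (F + 1)).card + 1) * M) < Bad.card := by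
    omega
  obtain ⟨z00, hz00⟩ : Bad.Nonempty := card_pos.1 (lt_of_le_of_lt (Nat.zero_le _) hcon)
  have hN : 4 / δ ≤ N := hR.trans (by exact_mod_cast (by omega : R ≤ N))
  have h2 : ∀ z ∈ Bad, ∃ y : Cf H × Fin (R + 1), y.1.Ok h0 ∧
      δ / 2 * N < ‖∑ t ∈ range (N * y.2 / R),
        (∏ l, cj (y.1.2.2.2 l) (w ((y.1.2.1 l : ℕ) * t + (y.1.2.2.1 l : ℕ)))) *
        ∏ l, cj (y.1.2.2.2 l)
          (z.2 (((y.1.2.1 l : ℕ) * t + ((y.1.2.2.1 l : ℕ) + h0) : ℕ) : ZMod z.1))‖ := by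
    intro z hz
    exact cutg hδ hR hN w hw (fun n => z.2 (n : ZMod z.1))
      (fun n => DirichletCharacter.norm_le_one _ _) (hBad z hz).2
  have : Nonempty (Cf H × Fin (R + 1)) := ⟨(h2 z00 hz00).choose⟩
  choose! y hy1 hy2 using h2
  obtain ⟨g, _, hz2⟩ := exists_lt_card_fiber_of_mul_lt_card_of_maps_to
    (s := Bad) (t := (univ : Finset (Cf H × Fin (R + 1)))) (f := y)
    (n := ((cands (F + 1)).card + 1) * M) (fun _ _ => mem_univ _) (by
      rw [card_univ]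
      exact hcon)
  obtain ⟨T, hT⟩ : ∃ T, T = Bad.filter fun z => y z = g := ⟨_, rfl⟩
  rw [← hT] at hz2
  have hTB : ∀ z ∈ T, z ∈ Bad ∧ y z = g := fun z hz => by
    rw [hT] at hz
    exact mem_filter.1 hz
  obtain ⟨e, heT, hfar, _⟩ := greedy (Close F) ((cands (F + 1)).card + 1) M T
    (close_few F T fun z hz => ⟨(hBad z (hTB z hz).1).1.1, (hBad z (hTB z hz).1).1.2.1⟩) hz2
  have heB : ∀ m, e m ∈ Bad := fun m => (hTB _ (heT m)).1
  have hez : ∀ m, y (e m) = g := fun m => (hTB _ (heT m)).2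
  have hMpos : 0 < M := by
    have : (0 : ℝ) < M := lt_of_lt_of_le (by positivity) hM
    exact_mod_cast this
  have hok : g.1.Ok h0 := by
    rw [← hez ⟨0, hMpos⟩]
    exact hy1 _ (heB _)
  have hxN : N * g.2 / R ≤ N := by
    refine Nat.div_le_of_le_mul ?_
    rw [mul_comm]
    exact Nat.mul_le_mul_right _ (Nat.le_of_lt_succ g.2.2)
  have hα : ∀ l, 1 ≤ (g.1.2.1 l : ℕ) ∧ (g.1.2.1 l : ℕ) ≤ H :=
    fun l => ⟨hok.2.1 l, Nat.le_of_lt_succ (g.1.2.1 l).2⟩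
  have hβ : ∀ l, (g.1.2.2.1 l : ℕ) ≤ H := fun l => Nat.le_of_lt_succ (g.1.2.2.1 l).2
  have hrH : (g.1.1 : ℕ) ≤ H := Nat.le_of_lt_succ g.1.1.2
  have hpair : ∀ m m', m < m' → ‖∑ t ∈ range (N * g.2 / R),
      (∏ l, cj (g.1.2.2.2 l)
        ((e m).2 (((g.1.2.1 l : ℕ) * t + ((g.1.2.2.1 l : ℕ) + h0) : ℕ) : ZMod (e m).1))) *
      (starRingEnd ℂ) (∏ l, cj (g.1.2.2.2 l)
        ((e m').2 (((g.1.2.1 l : ℕ) * t + ((g.1.2.2.1 l : ℕ) + h0) : ℕ) : ZMod (e m').1)))‖ ≤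
      (δ / 2) ^ 2 / 2 * N := by
    intro m m' hmm
    exact hP N (by omega) (e m) (e m') (fam_mono (Nat.le_succ P) (hBad _ (heB m)).1)
      (fam_mono (Nat.le_succ P) (hBad _ (heB m')).1) (hfar m m' hmm) _ hok.1 hrH _ _ _ hα hβ
      hok.2.2 _ hxN
  obtain ⟨m, hm⟩ := bessel hxN
    (fun t => ∏ l, cj (g.1.2.2.2 l) (w ((g.1.2.1 l : ℕ) * t + (g.1.2.2.1 l : ℕ)))) (fun t => by
      rw [norm_prod]
      refine prod_le_one (fun _ _ => norm_nonneg _) fun l _ => ?_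
      rw [cj_norm]
      exact hw _)
    (fun m t => ∏ l, cj (g.1.2.2.2 l)
      ((e m).2 (((g.1.2.1 l : ℕ) * t + ((g.1.2.2.1 l : ℕ) + h0) : ℕ) : ZMod (e m).1)))
    (fun m t => by
      rw [norm_prod]
      refine prod_le_one (fun _ _ => norm_nonneg _) fun l _ => ?_
      rw [cj_norm]
      exact DirichletCharacter.norm_le_one _ _) hδ2 hM (by
      intro m m' hmm
      rcases lt_or_gt_of_ne hmm with h | h
      · exact hpair m m' h
      · refine le_trans (le_of_eq ?_) (hpair m' m h)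
        rw [← RCLike.norm_conj, map_sum]
        congr 1
        refine sum_congr rfl fun t _ => ?_
        rw [map_mul, Complex.conj_conj, mul_comm])
  have h5 := hy2 (e m) (heB m)
  rw [hez m] at h5
  linarith

/-- the characters of the family -/
theorem primB {θ : ℝ} (hθ : 0 ≤ θ)
    (hPB : ∀ (H h0 : ℕ) (η : ℝ), 0 < η → PairB H h0 η θ) (k : ℕ) (h : Fin k → ℤ) (j : Fin k)
    (hne : ∀ i, i ≠ j → h i ≠ h j) {ε : ℝ} (hε : 0 < ε) :
    ∃ K P : ℕ, ∀ N : ℕ, ∀ S : Finset (Fin k), j ∉ S →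
      ∀ d : Fin k → ArithmeticFunction ℂ, (∀ i n, ‖d i n‖ ≤ 1) →
      ∃ E : Finset (Σ q : ℕ, DirichletCharacter ℂ q), E.card ≤ K ∧
      ∀ (q : ℕ) (χ : DirichletCharacter ℂ q), Fam θ P N ⟨q, χ⟩ → ⟨q, χ⟩ ∉ E →
      ∀ G : Fin k → ArithmeticFunction ℂ, (∀ i n, ‖G i n‖ ≤ 1) →
      (∀ i ∈ S, (G i).IsMultiplicative) → (∀ i, i ∉ S → i ≠ j → G i = d i) →
      (∀ n : ℕ, G j n = d j n * χ (n : ZMod q)) →
      ‖(1 / (N : ℂ)) * ∑ n ∈ Icc 1 N, ∏ i, G i ((n : ℤ) + h i).toNat‖ ≤ ε := by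
  classical
  rcases k with _ | k
  · exact j.elim0
  obtain ⟨H, δ, N0, s, hδ, hs, hfin⟩ := fin_core k h j hne ε hε
  obtain ⟨K, P, hP1, hK⟩ := pigB (h j + s).toNat H hδ hθ (hPB H (h j + s).toNat _ (by positivity))
  refine ⟨K + (cands (N0 + 1)).card, P, fun N S hjS d hd => ?_⟩
  by_cases hN0' : N < N0
  · refine ⟨cands (N0 + 1), Nat.le_add_left _ _, fun q χ hF hE => absurd (mem_cands ?_) hE⟩
    have h1 : q ≤ N := fam_le hθ hP1 hF
    show q < N0 + 1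
    omega
  have hN0 : N0 ≤ N := not_lt.1 hN0'
  obtain ⟨w, hw⟩ : ∃ w : ℕ → ℂ, w = fun n => ∏ x ∈ univ \ S, d x (n + (h x + s).toNat) := ⟨_, rfl⟩
  refine ⟨(cands (N + 1)).filter fun z => Fam θ P N z ∧
    ¬ Unc (fun n => w n * z.2 ((n + (h j + s).toNat : ℕ) : ZMod z.1)) (h j + s).toNat H N δ,
    (hK N w (fun n => ?_) _ (fun z hz => (mem_filter.1 hz).2)).trans (Nat.le_add_right _ _), ?_⟩
  · rw [hw]
    simp only
    rw [norm_prod]
    exact prod_le_one (fun _ _ => norm_nonneg _) fun x _ => hd x _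
  · intro q χ hF hE G hG hGS hGd hGj
    have hunc : Unc (fun n => w n * χ ((n + (h j + s).toNat : ℕ) : ZMod q))
        (h j + s).toNat H N δ := by
      by_contra hcon
      refine hE (mem_filter.2 ⟨mem_cands ?_, hF, hcon⟩)
      have h1 : q ≤ N := fam_le hθ hP1 hF
      show q < N + 1
      omega
    refine hfin N hN0 G S hjS hG hGS ?_
    have h1 : (fun n => ∏ x ∈ univ \ S, G x (n + (h x + s).toNat)) =
        fun n => w n * χ ((n + (h j + s).toNat : ℕ) : ZMod q) := by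
      funext n
      have hjm : j ∈ univ \ S := by
        rw [mem_sdiff]
        exact ⟨mem_univ _, hjS⟩
      rw [hw]
      simp only
      rw [← mul_prod_erase _ _ hjm, ← mul_prod_erase _ (fun x => d x (n + (h x + s).toNat)) hjm,
        hGj]
      have h2 : ∏ x ∈ (univ \ S).erase j, G x (n + (h x + s).toNat) =
          ∏ x ∈ (univ \ S).erase j, d x (n + (h x + s).toNat) := by
        refine prod_congr rfl fun x hx => ?_
        rw [mem_erase, mem_sdiff] at hx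
        rw [hGd x hx.2.2 hx.1]
      rw [h2]
      ring
    rw [h1]
    exact hunc

end Pool.Agent.H33.QT
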