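import Mathlib
import Pool.Agent.H37.PP.Asm

/-!
# [H33 QT PrimT] primitive characters of conductor `q`, `P q² (1 + T) ≤ N`, twisted by `n ^ (iτ)`, `|τ| ≤ T`

`pigT`, `primT`: copies of `pigA`, `primA` (`H37/PP/Asm`) for the twisted characters, from the pair estimate
`PairT`. One exceptional set serves all `τ` in `[-T, T]`.
-/

set_option autoImplicit false

namespace Pool.Agent.H33.QT

open Finset Pool.H2.EL Pool.Agent.H18.QT Pool.H37.PP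

/-- the pair estimate for twisted characters -/
def PairT (H h0 : ℕ) (η : ℝ) : Prop :=
  ∃ F P : ℕ, ∀ N : ℕ, ∀ T : ℝ, 0 ≤ T → ∀ z z' : Σ q : ℕ, DirichletCharacter ℂ q,
    z.1 ≠ 0 → z'.1 ≠ 0 → z.2.IsPrimitive → z'.2.IsPrimitive →
    P * (z.1 : ℝ) ^ 2 * (1 + T) ≤ N → P * (z'.1 : ℝ) ^ 2 * (1 + T) ≤ N → ¬ Close F z z' →
    ∀ τ τ' : ℝ, |τ| ≤ T → |τ'| ≤ T → ∀ r : ℕ, 1 ≤ r → r ≤ H →
    ∀ (b : Fin r → Bool) (α β : Fin r → ℕ),
    (∀ l, 1 ≤ α l ∧ α l ≤ H) → (∀ l, β l ≤ H) →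
    (∀ l l', l ≠ l' → α l * (β l' + h0) ≠ α l' * (β l + h0)) → ∀ x : ℕ, x ≤ N →
    ‖∑ t ∈ range x, (∏ l, cj (b l) (z.2 ((α l * t + (β l + h0) : ℕ) : ZMod z.1) *
        ((α l * t + (β l + h0) : ℕ) : ℂ) ^ ((τ : ℂ) * Complex.I))) *
      (starRingEnd ℂ) (∏ l, cj (b l) (z'.2 ((α l * t + (β l + h0) : ℕ) : ZMod z'.1) *
        ((α l * t + (β l + h0) : ℕ) : ℂ) ^ ((τ' : ℂ) * Complex.I)))‖ ≤ η * N

/-- the twisted character has absolute value at most `1` -/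
lemma tw_norm {q : ℕ} (χ : DirichletCharacter ℂ q) (τ : ℝ) (n : ℕ) :
    ‖χ (n : ZMod q) * (n : ℂ) ^ ((τ : ℂ) * Complex.I)‖ ≤ 1 := by
  rw [norm_mul]
  refine mul_le_one₀ (DirichletCharacter.norm_le_one _ _) (norm_nonneg _) ?_
  rcases Nat.eq_zero_or_pos n with h | h
  · rw [h, Nat.cast_zero]
    by_cases hz : ((τ : ℂ) * Complex.I) = 0
    · rw [hz, Complex.cpow_zero, norm_one]
    · rw [Complex.zero_cpow hz, norm_zero]
      exact zero_le_one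
  · rw [Complex.norm_natCast_cpow_of_pos h]
    simp

lemma le_of_cond {P N q : ℕ} {T : ℝ} (hP : 1 ≤ P) (hT : 0 ≤ T)
    (h : (P : ℝ) * (q : ℝ) ^ 2 * (1 + T) ≤ N) : q ≤ N := by
  have e1 : (q : ℝ) ≤ (q : ℝ) ^ 2 := by exact_mod_cast Nat.le_self_pow two_ne_zero q
  have e2 : (1 : ℝ) ≤ P := by exact_mod_cast hP
  have e3 : (q : ℝ) ^ 2 ≤ (P : ℝ) * (q : ℝ) ^ 2 := le_mul_of_one_le_left (by positivity) e2
  have e4 : (P : ℝ) * (q : ℝ) ^ 2 ≤ (P : ℝ) * (q : ℝ) ^ 2 * (1 + T) :=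
    le_mul_of_one_le_right (by positivity) (by linarith)
  exact_mod_cast e1.trans (e3.trans (e4.trans h))

/-- few characters are exceptional for some `τ` -/
theorem pigT (h0 H : ℕ) {δ : ℝ} (hδ : 0 < δ) (hPT : PairT H h0 ((δ / 2) ^ 2 / 2)) :
    ∃ K P : ℕ, 1 ≤ P ∧ ∀ N : ℕ, ∀ T : ℝ, 0 ≤ T → ∀ w : ℕ → ℂ, (∀ n, ‖w n‖ ≤ 1) →
      ∀ Bad : Finset (Σ q : ℕ, DirichletCharacter ℂ q),
      (∀ z ∈ Bad, z.1 ≠ 0 ∧ z.2.IsPrimitive ∧ (P : ℝ) * (z.1 : ℝ) ^ 2 * (1 + T) ≤ N ∧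
        ∃ τ : ℝ, |τ| ≤ T ∧ ¬ Unc (fun n => w n * (z.2 ((n + h0 : ℕ) : ZMod z.1) *
          ((n + h0 : ℕ) : ℂ) ^ ((τ : ℂ) * Complex.I))) h0 H N δ) → Bad.card ≤ K := by
  classical
  obtain ⟨M, hM⟩ := exists_nat_ge (2 / (δ / 2) ^ 2)
  have hδ2 : 0 < δ / 2 := by positivity
  have hη : 0 < (δ / 2) ^ 2 / 2 := by positivity
  obtain ⟨F, P, hP⟩ := hPT
  obtain ⟨R, hR⟩ := exists_nat_ge (4 / δ)
  refine ⟨Fintype.card (Cf H × Fin (R + 1)) * (((cands (F + 1)).card + 1) * M) +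
    (cands (R + 1)).card, P + 1, Nat.succ_pos _, fun N T hT0 w hw Bad hBad => ?_⟩
  by_cases hNR : N < R
  · refine le_trans (card_le_card fun z hz => mem_cands ?_) (Nat.le_add_left _ _)
    have h1 := le_of_cond (Nat.succ_pos P) hT0 (hBad z hz).2.2.1
    omega
  push Not at hNR
  by_contra hcon'
  push Not at hcon'
  have hcon : Fintype.card (Cf H × Fin (R + 1)) * (((cands (F + 1)).card + 1) * M) < Bad.card := by
    omega
  obtain ⟨z00, hz00⟩ : Bad.Nonempty := card_pos.1 (lt_of_le_of_lt (Nat.zero_le _) hcon)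
  have hN : 4 / δ ≤ N := hR.trans (by exact_mod_cast hNR)
  have hτe : ∀ z ∈ Bad, ∃ τ : ℝ, |τ| ≤ T ∧ ¬ Unc (fun n => w n * (z.2 ((n + h0 : ℕ) : ZMod z.1) *
          ((n + h0 : ℕ) : ℂ) ^ ((τ : ℂ) * Complex.I))) h0 H N δ := fun z hz => (hBad z hz).2.2.2
  choose! τ hτ1 hτ2 using hτe
  have h2 : ∀ z ∈ Bad, ∃ y : Cf H × Fin (R + 1), y.1.Ok h0 ∧
      δ / 2 * N < ‖∑ t ∈ range (N * y.2 / R),
        (∏ l, cj (y.1.2.2.2 l) (w ((y.1.2.1 l : ℕ) * t + (y.1.2.2.1 l : ℕ)))) *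
        ∏ l, cj (y.1.2.2.2 l)
          (z.2 (((y.1.2.1 l : ℕ) * t + ((y.1.2.2.1 l : ℕ) + h0) : ℕ) : ZMod z.1) *
            (((y.1.2.1 l : ℕ) * t + ((y.1.2.2.1 l : ℕ) + h0) : ℕ) : ℂ) ^
              ((τ z : ℂ) * Complex.I))‖ := by
    intro z hz
    exact cutg hδ hR hN w hw (fun n => z.2 (n : ZMod z.1) * (n : ℂ) ^ ((τ z : ℂ) * Complex.I))
      (fun n => tw_norm _ _ _) (hτ2 z hz)
  have : Nonempty (Cf H × Fin (R + 1)) := ⟨(h2 z00 hz00).choose⟩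
  choose! y hy1 hy2 using h2
  obtain ⟨g, _, hz2⟩ := exists_lt_card_fiber_of_mul_lt_card_of_maps_to
    (s := Bad) (t := (univ : Finset (Cf H × Fin (R + 1)))) (f := y)
    (n := ((cands (F + 1)).card + 1) * M) (fun _ _ => mem_univ _) (by
      rw [card_univ]
      exact hcon)
  obtain ⟨TT, hTT⟩ : ∃ TT, TT = Bad.filter fun z => y z = g := ⟨_, rfl⟩
  rw [← hTT] at hz2
  have hTB : ∀ z ∈ TT, z ∈ Bad ∧ y z = g := fun z hz => by
    rw [hTT] at hz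
    exact mem_filter.1 hz
  obtain ⟨e, heT, hfar, _⟩ := greedy (Close F) ((cands (F + 1)).card + 1) M TT
    (close_few F TT fun z hz => ⟨(hBad z (hTB z hz).1).1, (hBad z (hTB z hz).1).2.1⟩) hz2
  have heB : ∀ m, e m ∈ Bad := fun m => (hTB _ (heT m)).1
  have hez : ∀ m, y (e m) = g := fun m => (hTB _ (heT m)).2
  have hMpos : 0 < M := by
    have : (0 : ℝ) < M := lt_of_lt_of_le (by positivity) hM
    exact_mod_cast this
  have hok : g.1.Ok h0 := by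
    rw [← hez ⟨0, hMpos⟩]
    exact hy1 _ (heB _)
  have hxN : N * g.2 / R ≤ N := by
    refine Nat.div_le_of_le_mul ?_
    rw [mul_comm]
    exact Nat.mul_le_mul_right _ (Nat.le_of_lt_succ g.2.2)
  have hα : ∀ l, 1 ≤ (g.1.2.1 l : ℕ) ∧ (g.1.2.1 l : ℕ) ≤ H :=
    fun l => ⟨hok.2.1 l, Nat.le_of_lt_succ (g.1.2.1 l).2⟩
  have hβ : ∀ l, (g.1.2.2.1 l : ℕ) ≤ H := fun l => Nat.le_of_lt_succ (g.1.2.2.1 l).2
  have hrH : (g.1.1 : ℕ) ≤ H := Nat.le_of_lt_succ g.1.1.2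
  have hcond : ∀ m, (P : ℝ) * ((e m).1 : ℝ) ^ 2 * (1 + T) ≤ N := by
    intro m
    refine le_trans ?_ (hBad _ (heB m)).2.2.1
    push_cast
    have e1 : (0 : ℝ) ≤ ((e m).1 : ℝ) ^ 2 * (1 + T) := by positivity
    nlinarith
  have hpair : ∀ m m', m < m' → ‖∑ t ∈ range (N * g.2 / R),
      (∏ l, cj (g.1.2.2.2 l)
        ((e m).2 (((g.1.2.1 l : ℕ) * t + ((g.1.2.2.1 l : ℕ) + h0) : ℕ) : ZMod (e m).1) *
            (((g.1.2.1 l : ℕ) * t + ((g.1.2.2.1 l : ℕ) + h0) : ℕ) : ℂ) ^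
              ((τ (e m) : ℂ) * Complex.I))) *
      (starRingEnd ℂ) (∏ l, cj (g.1.2.2.2 l)
        ((e m').2 (((g.1.2.1 l : ℕ) * t + ((g.1.2.2.1 l : ℕ) + h0) : ℕ) : ZMod (e m').1) *
            (((g.1.2.1 l : ℕ) * t + ((g.1.2.2.1 l : ℕ) + h0) : ℕ) : ℂ) ^
              ((τ (e m') : ℂ) * Complex.I)))‖ ≤
      (δ / 2) ^ 2 / 2 * N := by
    intro m m' hmm
    exact hP N T hT0 (e m) (e m') (hBad _ (heB m)).1 (hBad _ (heB m')).1 (hBad _ (heB m)).2.1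
      (hBad _ (heB m')).2.1 (hcond m) (hcond m') (hfar m m' hmm) _ _ (hτ1 _ (heB m))
      (hτ1 _ (heB m')) _ hok.1 hrH _ _ _ hα hβ hok.2.2 _ hxN
  obtain ⟨m, hm⟩ := bessel hxN
    (fun t => ∏ l, cj (g.1.2.2.2 l) (w ((g.1.2.1 l : ℕ) * t + (g.1.2.2.1 l : ℕ)))) (fun t => by
      rw [norm_prod]
      refine prod_le_one (fun _ _ => norm_nonneg _) fun l _ => ?_
      rw [cj_norm]
      exact hw _)
    (fun m t => ∏ l, cj (g.1.2.2.2 l)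
      ((e m).2 (((g.1.2.1 l : ℕ) * t + ((g.1.2.2.1 l : ℕ) + h0) : ℕ) : ZMod (e m).1) *
            (((g.1.2.1 l : ℕ) * t + ((g.1.2.2.1 l : ℕ) + h0) : ℕ) : ℂ) ^
              ((τ (e m) : ℂ) * Complex.I)))
    (fun m t => by
      rw [norm_prod]
      refine prod_le_one (fun _ _ => norm_nonneg _) fun l _ => ?_
      rw [cj_norm]
      exact tw_norm _ _ _) hδ2 hM (by
      intro m m' hmm
      rcases lt_or_gt_of_ne hmm with h | h
      · exact hpair m m' h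
      · refine le_trans (le_of_eq ?_) (hpair m' m h)
        rw [← RCLike.norm_conj, map_sum]
        congr 1
        refine sum_congr rfl fun t _ => ?_
        rw [map_mul, Complex.conj_conj, mul_comm])
  have h5 := hy2 (e m) (heB m)
  rw [hez m] at h5
  linarith

/-- the twisted characters: one exceptional set for all `τ` in `[-T, T]` -/
theorem primT (hPT : ∀ (H h0 : ℕ) (η : ℝ), 1 ≤ h0 → 0 < η → PairT H h0 η) (k : ℕ) (h : Fin k → ℤ)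
    (j : Fin k) (hne : ∀ i, i ≠ j → h i ≠ h j) {ε : ℝ} (hε : 0 < ε) :
    ∃ K P : ℕ, ∀ N : ℕ, ∀ S : Finset (Fin k), j ∉ S →
      ∀ d : Fin k → ArithmeticFunction ℂ, (∀ i n, ‖d i n‖ ≤ 1) → ∀ T : ℝ, 0 ≤ T →
      ∃ E : Finset (Σ q : ℕ, DirichletCharacter ℂ q), E.card ≤ K ∧
      ∀ q : ℕ, q ≠ 0 → (P : ℝ) * (q : ℝ) ^ 2 * (1 + T) ≤ N →
      ∀ χ : DirichletCharacter ℂ q, χ.IsPrimitive → ⟨q, χ⟩ ∉ E → ∀ τ : ℝ, |τ| ≤ T →
      ∀ G : Fin k → ArithmeticFunction ℂ, (∀ i n, ‖G i n‖ ≤ 1) →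
      (∀ i ∈ S, (G i).IsMultiplicative) → (∀ i, i ∉ S → i ≠ j → G i = d i) →
      (∀ n : ℕ, 0 < n → G j n = d j n * (χ (n : ZMod q) * (n : ℂ) ^ ((τ : ℂ) * Complex.I))) →
      ‖(1 / (N : ℂ)) * ∑ n ∈ Icc 1 N, ∏ i, G i ((n : ℤ) + h i).toNat‖ ≤ ε := by
  classical
  rcases k with _ | k
  · exact j.elim0
  obtain ⟨H, δ, N0, s, hδ, hs, hfin⟩ := fin_core k h j hne ε hε
  have h0pos : 1 ≤ (h j + s).toNat := by
    have := hs j
    omega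
  obtain ⟨K, P, hP1, hK⟩ := pigT (h j + s).toNat H hδ (hPT H (h j + s).toNat _ h0pos (by positivity))
  refine ⟨K + (cands (N0 + 1)).card, P, fun N S hjS d hd T hT0 => ?_⟩
  by_cases hN0' : N < N0
  · refine ⟨cands (N0 + 1), Nat.le_add_left _ _, fun q hq hF χ hχ hE => absurd (mem_cands ?_) hE⟩
    have h1 : q ≤ N := le_of_cond hP1 hT0 hF
    show q < N0 + 1
    omega
  have hN0 : N0 ≤ N := not_lt.1 hN0'
  obtain ⟨w, hw⟩ : ∃ w : ℕ → ℂ, w = fun n => ∏ x ∈ univ \ S, d x (n + (h x + s).toNat) := ⟨_, rfl⟩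
  refine ⟨(cands (N + 1)).filter fun z => z.1 ≠ 0 ∧ z.2.IsPrimitive ∧
      (P : ℝ) * (z.1 : ℝ) ^ 2 * (1 + T) ≤ N ∧
    ∃ τ : ℝ, |τ| ≤ T ∧ ¬ Unc (fun n => w n * (z.2 ((n + (h j + s).toNat : ℕ) : ZMod z.1) *
      ((n + (h j + s).toNat : ℕ) : ℂ) ^ ((τ : ℂ) * Complex.I))) (h j + s).toNat H N δ,
    (hK N T hT0 w (fun n => ?_) _ (fun z hz => (mem_filter.1 hz).2)).trans (Nat.le_add_right _ _),
    ?_⟩
  · rw [hw]
    simp only
    rw [norm_prod]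
    exact prod_le_one (fun _ _ => norm_nonneg _) fun x _ => hd x _
  · intro q hq hF χ hχ hE τ hτ G hG hGS hGd hGj
    have hunc : Unc (fun n => w n * (χ ((n + (h j + s).toNat : ℕ) : ZMod q) *
        ((n + (h j + s).toNat : ℕ) : ℂ) ^ ((τ : ℂ) * Complex.I))) (h j + s).toNat H N δ := by
      by_contra hcon
      refine hE (mem_filter.2 ⟨mem_cands ?_, hq, hχ, hF, τ, hτ, hcon⟩)
      have h1 : q ≤ N := le_of_cond hP1 hT0 hF
      show q < N + 1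
      omega
    refine hfin N hN0 G S hjS hG hGS ?_
    have h1 : (fun n => ∏ x ∈ univ \ S, G x (n + (h x + s).toNat)) =
        fun n => w n * (χ ((n + (h j + s).toNat : ℕ) : ZMod q) *
          ((n + (h j + s).toNat : ℕ) : ℂ) ^ ((τ : ℂ) * Complex.I)) := by
      funext n
      have hjm : j ∈ univ \ S := by
        rw [mem_sdiff]
        exact ⟨mem_univ _, hjS⟩
      rw [hw]
      simp only
      rw [← mul_prod_erase _ _ hjm, ← mul_prod_erase _ (fun x => d x (n + (h x + s).toNat)) hjm,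
        hGj _ (by omega)]
      have h2 : ∏ x ∈ (univ \ S).erase j, G x (n + (h x + s).toNat) =
          ∏ x ∈ (univ \ S).erase j, d x (n + (h x + s).toNat) := by
        refine prod_congr rfl fun x hx => ?_
        rw [mem_erase, mem_sdiff] at hx
        rw [hGd x hx.2.2 hx.1]
      rw [h2]
      ring
    rw [h1]
    exact hunc

end Pool.Agent.H33.QT
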