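import Mathlib
import Pool.Agent.H18.QT.Prm

/-!
# [H33 QT Mod] all characters modulo one squarefree `q ≤ N`

Copy of `pairD`, `pigD`, `primD` (`H18/QT/Prm`) for the family of all characters modulo one squarefree number `q`: the
quotient of two of them is a nonprincipal character modulo a prime `p ∣ q`, times a function of period `q / p`.
-/

set_option autoImplicit false

namespace Pool.Agent.H33.QT

open Finset Pool.H2.EL Pool.Agent.H18.QT

/-- two characters -/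
theorem pairM {H h0 : ℕ} {η : ℝ} (hη : 0 < η) {D : ℕ} (hW : WeilD D) :
    ∃ P : ℕ, ∀ q : ℕ, Squarefree q → ∀ (χ χ' : DirichletCharacter ℂ q)
    (c c' : (p : ℕ) → DirichletCharacter ℂ p),
    (∀ n : ℕ, χ (n : ZMod q) = ∏ p ∈ q.primeFactors, c p (n : ZMod p)) →
    (∀ n : ℕ, χ' (n : ZMod q) = ∏ p ∈ q.primeFactors, c' p (n : ZMod p)) →
    (∀ p, p ∉ q.primeFactors → c p = 1) → (∀ p, p ∉ q.primeFactors → c' p = 1) →
    (∀ p, (c p) ^ D = 1) → (∀ p, (c' p) ^ D = 1) → ∀ p : ℕ, p.Prime → P ≤ p → c p ≠ c' p →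
    ∀ N : ℕ, q ≤ N → ∀ r : ℕ, 1 ≤ r → r ≤ H → ∀ (b : Fin r → Bool) (α β : Fin r → ℕ),
    (∀ l, 1 ≤ α l ∧ α l ≤ H) → (∀ l, β l ≤ H) →
    (∀ l l', l ≠ l' → α l * (β l' + h0) ≠ α l' * (β l + h0)) → ∀ x : ℕ, x ≤ N →
    ‖∑ t ∈ range x, (∏ l, cj (b l) (χ ((α l * t + (β l + h0) : ℕ) : ZMod q))) *
      (starRingEnd ℂ) (∏ l, cj (b l) (χ' ((α l * t + (β l + h0) : ℕ) : ZMod q)))‖ ≤ η * N := by
  classical
  obtain ⟨R, P, hkar⟩ := kar H (H + h0) hη (δ := 1 / 2) (by norm_num)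
  obtain ⟨P', hP'⟩ := hW R
  refine ⟨P + P', ?_⟩
  intro q hq χ χ' c c' h1 h1' h2 h2' h3 h3' p hp hPp hne N hN r hr hrH b α β hα hβ hfr x hx
  have hpf : Fact p.Prime := ⟨hp⟩
  have hNe : NeZero p := ⟨hp.ne_zero⟩
  obtain ⟨ψ, hψ⟩ : ∃ ψ : DirichletCharacter ℂ p, ψ = c p * (c' p)⁻¹ := ⟨_, rfl⟩
  have hψ1 : ψ ≠ 1 := by
    rw [hψ]
    intro h
    exact hne (mul_inv_eq_one.1 h)
  have hψD : ψ ^ D = 1 := by
    rw [hψ, mul_pow, inv_pow, h3, h3', inv_one, mul_one]
  obtain ⟨m, hm⟩ : ∃ m : ℕ, m = ∏ r ∈ q.primeFactors.erase p, r := ⟨_, rfl⟩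
  have hm0 : 0 < m := by
    rw [hm]
    exact prod_pos fun r hr => (Nat.prime_of_mem_primeFactors (mem_of_mem_erase hr)).pos
  have hpm : ¬ p ∣ m := by
    rw [hm]
    intro h
    obtain ⟨r, hr, hpr⟩ := (hp.prime.dvd_finsetProd_iff _).1 h
    rw [mem_erase] at hr
    exact hr.1 ((Nat.prime_dvd_prime_iff_eq hp (Nat.prime_of_mem_primeFactors hr.2)).1 hpr).symm
  have hmN : m * p ≤ N := by
    refine le_trans (le_of_eq ?_) hN
    have h : p ∈ q.primeFactors := by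
      by_contra h
      exact hne ((h2 p h).trans (h2' p h).symm)
    rw [hm, mul_comm, mul_prod_erase _ (fun r => r) h]
    exact Nat.prod_primeFactors_of_squarefree hq
  obtain ⟨V, hV⟩ : ∃ V : ℕ → ℂ, V = fun n => (∏ r ∈ q.primeFactors.erase p, c r (n : ZMod r)) *
      (starRingEnd ℂ) (∏ r ∈ q.primeFactors.erase p, c' r (n : ZMod r)) := ⟨_, rfl⟩
  have hVper : ∀ n a, V (n + m * a) = V n := by
    intro n a
    rw [hV]
    simp only
    rw [prod_per _ c n (m * a) fun r hr => by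
        rw [hm]
        exact Dvd.dvd.mul_right (dvd_prod_of_mem (fun r => r) hr) _,
      prod_per _ c' n (m * a) fun r hr => by
        rw [hm]
        exact Dvd.dvd.mul_right (dvd_prod_of_mem (fun r => r) hr) _]
  have hVb : ∀ n, ‖V n‖ ≤ 1 := by
    intro n
    rw [hV]
    simp only
    rw [norm_mul, RCLike.norm_conj, norm_prod, norm_prod]
    exact mul_le_one₀ (prod_le_one (fun _ _ => norm_nonneg _) fun r _ =>
      DirichletCharacter.norm_le_one _ _) (prod_nonneg fun _ _ => norm_nonneg _)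
      (prod_le_one (fun _ _ => norm_nonneg _) fun r _ => DirichletCharacter.norm_le_one _ _)
  have hquot : ∀ n : ℕ, χ (n : ZMod q) * (starRingEnd ℂ) (χ' (n : ZMod q)) = ψ (n : ZMod p) * V n := by
    intro n
    rw [h1, h1', quot c c' h2 h2' hne n, hψ, hV]
  have hfin := hkar p hpf (by omega) ψ (hP' p hpf (by omega) ψ hψ1 hψD) m hm0 hpm N (by
      rw [show (1 / 2 + 1 / 2 : ℝ) = 1 by norm_num, Real.rpow_one]
      exact_mod_cast hmN)
    (fun t => ∏ l, cj (b l) (V (α l * t + (β l + h0)))) (fun t => by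
      refine prod_congr rfl fun l _ => ?_
      congr 1
      rw [show α l * (t + m) + (β l + h0) = α l * t + (β l + h0) + m * α l by ring, hVper])
    (fun t => by
      rw [norm_prod]
      refine prod_le_one (fun _ _ => norm_nonneg _) fun l _ => ?_
      rw [cj_norm]
      exact hVb _) r hr hrH b α (fun l => β l + h0) hα
    (fun l => by have := hβ l; omega) hfr x hx
  refine le_trans (le_of_eq ?_) hfin
  congr 1
  refine sum_congr rfl fun t _ => ?_
  rw [map_prod, ← prod_mul_distrib, ← prod_mul_distrib]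
  refine prod_congr rfl fun l _ => ?_
  have e1 : (starRingEnd ℂ) (cj (b l) (χ' ((α l * t + (β l + h0) : ℕ) : ZMod q))) =
      cj (b l) ((starRingEnd ℂ) (χ' ((α l * t + (β l + h0) : ℕ) : ZMod q))) := by
    unfold cj
    cases b l <;> simp
  rw [e1, ← cj_mul', hquot, ← cj_mul', mul_comm]

/-- few characters modulo `q` are exceptional -/
theorem pigM {D : ℕ} (hW : WeilD D) (h0 H : ℕ) {δ : ℝ} (hδ : 0 < δ) :
    ∃ K : ℕ, ∀ q : ℕ, Squarefree q → ∀ N : ℕ, q ≤ N → ∀ w : ℕ → ℂ, (∀ n, ‖w n‖ ≤ 1) →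
      ∀ Bad : Finset (DirichletCharacter ℂ q),
      (∀ z ∈ Bad, z ^ D = 1 ∧
        ¬ Unc (fun n => w n * z ((n + h0 : ℕ) : ZMod q)) h0 H N δ) → Bad.card ≤ K := by
  classical
  obtain ⟨M, hM⟩ := exists_nat_ge (2 / (δ / 2) ^ 2)
  have hδ2 : 0 < δ / 2 := by positivity
  have hη : 0 < (δ / 2) ^ 2 / 2 := by positivity
  obtain ⟨P, hP⟩ := pairM (H := H) (h0 := h0) hη hW
  obtain ⟨R, hR⟩ := exists_nat_ge (4 / δ)
  refine ⟨Fintype.card (Cf H × Fin (R + 1)) *
    Fintype.card ((r : Fin P) → DirichletCharacter ℂ (r : ℕ)) * M + (cands (R + 1)).card,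
    fun q hq N hqN w hw Bad hBad => ?_⟩
  by_cases hNR : N < R
  · refine le_trans (le_trans (card_le_card_of_injOn
      (fun z => (⟨q, z⟩ : Σ q : ℕ, DirichletCharacter ℂ q)) (t := cands (R + 1))
      (fun z _ => mem_coe.2 (mem_cands (by show q < R + 1; omega)))
      (fun z _ z' _ h => eq_of_heq (Sigma.mk.inj h).2)) le_rfl) (Nat.le_add_left _ _)
  push Not at hNR
  have hN : 4 / δ ≤ N := hR.trans (by exact_mod_cast hNR)
  by_contra hcon
  push Not at hcon
  have hcon' : Fintype.card (Cf H × Fin (R + 1)) *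
    Fintype.card ((r : Fin P) → DirichletCharacter ℂ (r : ℕ)) * M < Bad.card := by omega
  choose c hc using fun z : DirichletCharacter ℂ q => Pool.Agent.H75.QT.comps hq z
  have h2 : ∀ z ∈ Bad, ∃ y : Cf H × Fin (R + 1), y.1.Ok h0 ∧
      δ / 2 * N < ‖∑ t ∈ range (N * y.2 / R),
        (∏ l, cj (y.1.2.2.2 l) (w ((y.1.2.1 l : ℕ) * t + (y.1.2.2.1 l : ℕ)))) *
        ∏ l, cj (y.1.2.2.2 l)
          (z (((y.1.2.1 l : ℕ) * t + ((y.1.2.2.1 l : ℕ) + h0) : ℕ) : ZMod q))‖ := by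
    intro z hz
    exact cutg hδ hR hN w hw (fun n => z (n : ZMod q))
      (fun n => DirichletCharacter.norm_le_one _ _) (hBad z hz).2
  obtain ⟨z00, hz00⟩ : Bad.Nonempty := card_pos.1 (lt_of_le_of_lt (Nat.zero_le _) hcon')
  have : Nonempty (Cf H × Fin (R + 1)) := ⟨(h2 z00 hz00).choose⟩
  choose! y hy1 hy2 using h2
  obtain ⟨g, _, hz2⟩ := exists_lt_card_fiber_of_mul_lt_card_of_maps_to
    (s := Bad) (t := (univ : Finset ((Cf H × Fin (R + 1)) ×
      ((r : Fin P) → DirichletCharacter ℂ (r : ℕ)))))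
    (f := fun z => (y z, fun r : Fin P => c z (r : ℕ))) (n := M) (fun _ _ => mem_univ _) (by
      rw [card_univ, Fintype.card_prod]
      exact hcon')
  obtain ⟨T, hT, hTc⟩ := exists_subset_card_eq hz2.le
  obtain ⟨e, he, heT⟩ : ∃ e : Fin M → DirichletCharacter ℂ q,
      Function.Injective e ∧ ∀ m, e m ∈ T :=
    ⟨fun m => ((T.equivFinOfCardEq hTc).symm m : DirichletCharacter ℂ q),
      Subtype.val_injective.comp (T.equivFinOfCardEq hTc).symm.injective, fun m =>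
      ((T.equivFinOfCardEq hTc).symm m).2⟩
  have heB : ∀ m, e m ∈ Bad := fun m => (mem_filter.1 (hT (heT m))).1
  have hez : ∀ m, y (e m) = g.1 ∧ (fun r : Fin P => c (e m) (r : ℕ)) = g.2 := fun m => by
    have h := (mem_filter.1 (hT (heT m))).2
    rw [← h]
    exact ⟨rfl, rfl⟩
  have hMpos : 0 < M := by
    have : (0 : ℝ) < M := lt_of_lt_of_le (by positivity) hM
    exact_mod_cast this
  have hok : g.1.1.Ok h0 := by
    rw [← (hez ⟨0, hMpos⟩).1]
    exact hy1 _ (heB _)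
  have hxN : N * g.1.2 / R ≤ N := by
    refine Nat.div_le_of_le_mul ?_
    rw [mul_comm]
    exact Nat.mul_le_mul_right _ (Nat.le_of_lt_succ g.1.2.2)
  have hα : ∀ l, 1 ≤ (g.1.1.2.1 l : ℕ) ∧ (g.1.1.2.1 l : ℕ) ≤ H :=
    fun l => ⟨hok.2.1 l, Nat.le_of_lt_succ (g.1.1.2.1 l).2⟩
  have hβ : ∀ l, (g.1.1.2.2.1 l : ℕ) ≤ H := fun l => Nat.le_of_lt_succ (g.1.1.2.2.1 l).2
  have hrH : (g.1.1.1 : ℕ) ≤ H := Nat.le_of_lt_succ g.1.1.1.2
  obtain ⟨m, hm⟩ := bessel hxN
    (fun t => ∏ l, cj (g.1.1.2.2.2 l) (w ((g.1.1.2.1 l : ℕ) * t + (g.1.1.2.2.1 l : ℕ)))) (fun t => by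
      rw [norm_prod]
      refine prod_le_one (fun _ _ => norm_nonneg _) fun l _ => ?_
      rw [cj_norm]
      exact hw _)
    (fun m t => ∏ l, cj (g.1.1.2.2.2 l)
      ((e m) (((g.1.1.2.1 l : ℕ) * t + ((g.1.1.2.2.1 l : ℕ) + h0) : ℕ) : ZMod q)))
    (fun m t => by
      rw [norm_prod]
      refine prod_le_one (fun _ _ => norm_nonneg _) fun l _ => ?_
      rw [cj_norm]
      exact DirichletCharacter.norm_le_one _ _) hδ2 hM (by
      intro m m' hmm
      obtain ⟨c1, c2, c3, -⟩ := hc (e m)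
      obtain ⟨d1, d2, d3, -⟩ := hc (e m')
      have a4 := (hBad _ (heB m)).1
      have b4 := (hBad _ (heB m')).1
      -- a large prime
      obtain ⟨p, hp⟩ : ∃ p, c (e m) p ≠ c (e m') p := by
        by_contra hcc
        push Not at hcc
        apply he.ne hmm
        have hNe : NeZero q := ⟨hq.ne_zero⟩
        refine MulChar.ext' fun y => ?_
        have h6 : (e m) ((y.val : ℕ) : ZMod q) = (e m') ((y.val : ℕ) : ZMod q) := by
          rw [c1, d1]
          exact prod_congr rfl fun p _ => by rw [hcc]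
        rwa [ZMod.natCast_zmod_val] at h6
      have hpp : p.Prime := by
        by_contra h
        apply hp
        rw [c2 p fun h' => h (Nat.prime_of_mem_primeFactors h'),
          d2 p fun h' => h (Nat.prime_of_mem_primeFactors h')]
      have hPp : P ≤ p := by
        by_contra h
        push Not at h
        apply hp
        have h1 := (hez m).2.trans (hez m').2.symm
        exact congrFun h1 ⟨p, h⟩
      exact hP _ hq _ _ _ _ c1 d1 c2 d2 (c3 D a4) (d3 D b4) p hpp hPp hp N hqN _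
        hok.1 hrH _ _ _ hα hβ hok.2.2 _ hxN)
  have h5 := hy2 (e m) (heB m)
  rw [(hez m).1] at h5
  linarith

/-- all characters modulo one squarefree `q ≤ N` -/
theorem modq {D : ℕ} (hW : WeilD D) (k : ℕ) (h : Fin k → ℤ) (j : Fin k)
    (hne : ∀ i, i ≠ j → h i ≠ h j) {ε : ℝ} (hε : 0 < ε) :
    ∃ K : ℕ, ∀ q : ℕ, Squarefree q → ∀ N : ℕ, q ≤ N → ∀ S : Finset (Fin k), j ∉ S →
      ∀ d : Fin k → ArithmeticFunction ℂ, (∀ i n, ‖d i n‖ ≤ 1) →
      ∃ E : Finset (DirichletCharacter ℂ q), E.card ≤ K ∧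
      ∀ χ : DirichletCharacter ℂ q, χ ^ D = 1 → χ ∉ E →
      ∀ G : Fin k → ArithmeticFunction ℂ, (∀ i n, ‖G i n‖ ≤ 1) →
      (∀ i ∈ S, (G i).IsMultiplicative) → (∀ i, i ∉ S → i ≠ j → G i = d i) →
      (∀ n : ℕ, G j n = d j n * χ (n : ZMod q)) →
      ‖(1 / (N : ℂ)) * ∑ n ∈ Icc 1 N, ∏ i, G i ((n : ℤ) + h i).toNat‖ ≤ ε := by
  classical
  rcases k with _ | k
  · exact j.elim0
  obtain ⟨H, δ, N0, s, hδ, hs, hfin⟩ := fin_core k h j hne ε hε
  obtain ⟨K, hK⟩ := pigM hW (h j + s).toNat H hδ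
  refine ⟨K + (cands (N0 + 1)).card, fun q hq N hqN S hjS d hd => ?_⟩
  by_cases hN0 : N < N0
  · refine ⟨univ, le_trans (card_le_card_of_injOn
      (fun z => (⟨q, z⟩ : Σ q : ℕ, DirichletCharacter ℂ q)) (t := cands (N0 + 1))
      (fun z _ => mem_coe.2 (mem_cands (by show q < N0 + 1; omega)))
      (fun z _ z' _ h => eq_of_heq (Sigma.mk.inj h).2)) (Nat.le_add_left _ _),
      fun χ _ hE => absurd (mem_univ _) hE⟩
  push Not at hN0
  obtain ⟨w, hw⟩ : ∃ w : ℕ → ℂ, w = fun n => ∏ x ∈ univ \ S, d x (n + (h x + s).toNat) := ⟨_, rfl⟩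
  refine ⟨univ.filter fun z : DirichletCharacter ℂ q => z ^ D = 1 ∧
    ¬ Unc (fun n => w n * z ((n + (h j + s).toNat : ℕ) : ZMod q)) (h j + s).toNat H N δ,
    (hK q hq N hqN w (fun n => ?_) _ (fun z hz => (mem_filter.1 hz).2)).trans
      (Nat.le_add_right _ _), ?_⟩
  · rw [hw]
    simp only
    rw [norm_prod]
    exact prod_le_one (fun _ _ => norm_nonneg _) fun x _ => hd x _
  · intro χ hχD hE G hG hGS hGd hGj
    have hunc : Unc (fun n => w n * χ ((n + (h j + s).toNat : ℕ) : ZMod q))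
        (h j + s).toNat H N δ := by
      by_contra hcon
      exact hE (mem_filter.2 ⟨mem_univ _, hχD, hcon⟩)
    refine hfin N hN0 G S hjS hG hGS ?_
    have h1 : (fun n => ∏ x ∈ univ \ S, G x (n + (h x + s).toNat)) =
        fun n => w n * χ ((n + (h j + s).toNat : ℕ) : ZMod q) := by
      funext n
      have hjm : j ∈ univ \ S := by
        rw [mem_sdiff]
        exact ⟨mem_univ _, hjS⟩
      rw [hw]
      simp only
      rw [← mul_prod_erase _ _ hjm, ← mul_prod_erase _ (fun x => d x (n + (h x + s).toNat)) hjm,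
        hGj]
      have h2 : ∏ x ∈ (univ \ S).erase j, G x (n + (h x + s).toNat) =
          ∏ x ∈ (univ \ S).erase j, d x (n + (h x + s).toNat) := by
        refine prod_congr rfl fun x hx => ?_
        rw [mem_erase, mem_sdiff] at hx
        rw [hGd x hx.2.2 hx.1]
      rw [h2]
      ring
    rw [h1]
    exact hunc

end Pool.Agent.H33.QT
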